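import Pool.Agent.Helper3.KM.Cas1

/-!
The Casimir operator of an orthogonal or symplectic Lie algebra on bilinear forms.
-/

set_option autoImplicit false

open Matrix
open Pool.Agent.Helper3.KM (th TT TT_mulVec ad3 ad3_mul ad3_trace)

namespace Pool.Agent.Helper3.KN

variable {F : Type*} [Field F] {m : Type*} [Fintype m] [DecidableEq m]

/-- the orthogonal or symplectic Lie algebra -/
noncomputable def so3 (J : Matrix m m F) : Submodule F (Matrix m m F) where
  carrier := {x | ad3 J x = -x}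
  add_mem' := by
    intro x y hx hy
    simp only [Set.mem_ofPred_eq, ad3] at hx hy ⊢
    rw [transpose_add, mul_add, add_mul, hx, hy, neg_add]
  zero_mem' := by simp [ad3]
  smul_mem' := by
    intro c x hx
    simp only [Set.mem_ofPred_eq, ad3] at hx ⊢
    rw [transpose_smul, Matrix.mul_smul, Matrix.smul_mul, hx, smul_neg]

theorem mem_so3 {J x : Matrix m m F} : x ∈ so3 J ↔ ad3 J x = -x := Iff.rfl

theorem mem_so3_iff {J : Matrix m m F} (hJ : IsUnit J.det) {x : Matrix m m F} :
    x ∈ so3 J ↔ xᵀ * J + J * x = 0 := by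
  have hJi : J⁻¹ * J = 1 := nonsing_inv_mul _ hJ
  have hJi' : J * J⁻¹ = 1 := mul_nonsing_inv _ hJ
  rw [mem_so3, ad3]
  constructor
  · intro h
    have h1 := congrArg (fun M => J * M) h
    simp only [mul_neg] at h1
    rw [← mul_assoc, ← mul_assoc, hJi', one_mul] at h1
    rw [h1, neg_add_cancel]
  · intro h
    have h1 : xᵀ * J = -(J * x) := eq_neg_of_add_eq_zero_left h
    rw [mul_assoc, h1, mul_neg, ← mul_assoc, hJi, one_mul]

theorem ad3_ad3 {J : Matrix m m F} {e : F} (hJ : IsUnit J.det) (he : e * e = 1) (hs : Jᵀ = e • J) (x : Matrix m m F) :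
    ad3 J (ad3 J x) = x := by
  have hJi : J⁻¹ * J = 1 := nonsing_inv_mul _ hJ
  have h4 : (e • J)⁻¹ = e • J⁻¹ := by
    apply inv_eq_left_inv
    rw [Matrix.smul_mul, Matrix.mul_smul, smul_smul, he, hJi, one_smul]
  rw [ad3, ad3, transpose_mul, transpose_mul, transpose_transpose, transpose_nonsing_inv, hs, h4]
  simp only [Matrix.smul_mul, Matrix.mul_smul, smul_smul, he, one_smul]
  calc J⁻¹ * (J * (x * J⁻¹)) * J = (J⁻¹ * J) * x * (J⁻¹ * J) := by noncomm_ring
    _ = x := by rw [hJi, one_mul, mul_one]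

theorem ad3_trace_mul {J : Matrix m m F} {e : F} (hJ : IsUnit J.det) (he : e * e = 1) (hs : Jᵀ = e • J)
    {s : Matrix m m F} (hss : s ∈ so3 J) (M : Matrix m m F) : (ad3 J M * s).trace = - (M * s).trace := by
  rw [← ad3_trace hJ, ad3_mul hJ, ad3_ad3 hJ he hs, mem_so3.1 hss, neg_mul, trace_neg, Matrix.trace_mul_comm]

theorem sub_ad3_mem {J : Matrix m m F} {e : F} (hJ : IsUnit J.det) (he : e * e = 1) (hs : Jᵀ = e • J)
    (M : Matrix m m F) : M - ad3 J M ∈ so3 J := by
  rw [mem_so3]
  have : ad3 J (M - ad3 J M) = ad3 J M - ad3 J (ad3 J M) := by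
    simp only [ad3, transpose_sub, mul_sub, sub_mul]
  rw [this, ad3_ad3 hJ he hs, neg_sub]

/-- the trace form is not degenerate -/
theorem so3_nondeg {J : Matrix m m F} {e : F} (h2 : (2 : F) ≠ 0) (hJ : IsUnit J.det) (he : e * e = 1)
    (hs : Jᵀ = e • J) {x : Matrix m m F} (hx : x ∈ so3 J) (h : ∀ y ∈ so3 J, (y * x).trace = 0) : x = 0 := by
  have h1 : ∀ M : Matrix m m F, (M * x).trace = 0 := by
    intro M
    have h3 := h _ (sub_ad3_mem hJ he hs M)
    rw [sub_mul, Matrix.trace_sub, ad3_trace_mul hJ he hs hx, sub_neg_eq_add, ← two_mul] at h3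
    exact (mul_eq_zero.1 h3).resolve_left h2
  ext i j
  have h3 := h1 (Matrix.single j i 1)
  rw [Matrix.trace_single_mul] at h3
  simpa using h3

section
variable {J : Matrix m m F} {e : F} (hJ : IsUnit J.det) (he : e * e = 1) (hs : Jᵀ = e • J)
  {ι : Type*} [Fintype ι] [DecidableEq ι] {s : ι → Matrix m m F} (hss : ∀ i, s i ∈ so3 J)
  (hspan : ∀ y ∈ so3 J, ∃ c : ι → F, y = ∑ k, c k • s k)
  {H G : Matrix ι ι F} (hG : ∀ i j, G i j = (s i * s j).trace) (hHG : H * G = 1)
include hJ he hs hss hspan hG hHG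

/-- the projection to the Lie algebra -/
theorem proj_so (M : Matrix m m F) : (2 : F) • ∑ i, ∑ j, (H i j * (M * s i).trace) • s j = M - ad3 J M := by
  have hGH : G * H = 1 := mul_eq_one_comm.1 hHG
  obtain ⟨c, hc⟩ := hspan _ (sub_ad3_mem hJ he hs M)
  have e1 : ∀ i, 2 * (M * s i).trace = ∑ k, c k * G k i := by
    intro i
    have e2 : ((M - ad3 J M) * s i).trace = 2 * (M * s i).trace := by
      rw [sub_mul, Matrix.trace_sub, ad3_trace_mul hJ he hs (hss i)]
      ring
    rw [← e2, hc, Finset.sum_mul, Matrix.trace_sum]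
    refine Finset.sum_congr rfl fun k _ => ?_
    rw [Matrix.smul_mul, Matrix.trace_smul, hG, smul_eq_mul]
  rw [Finset.smul_sum]
  simp only [Finset.smul_sum, smul_smul]
  have e3 : ∀ i j, 2 * (H i j * (M * s i).trace) = ∑ k, c k * (G k i * H i j) := by
    intro i j
    calc 2 * (H i j * (M * s i).trace) = (2 * (M * s i).trace) * H i j := by ring
      _ = _ := by
        rw [e1, Finset.sum_mul]
        exact Finset.sum_congr rfl fun k _ => by ring
  simp only [e3]
  rw [Finset.sum_comm]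
  simp only [← Finset.sum_smul]
  have e4 : ∀ j, ∑ i, ∑ k, c k * (G k i * H i j) = c j := by
    intro j
    rw [Finset.sum_comm]
    simp only [← Finset.mul_sum]
    have e5 : ∀ k, ∑ i, G k i * H i j = (1 : Matrix ι ι F) k j := by
      intro k
      rw [← hGH, mul_apply]
    simp only [e5, Matrix.one_apply]
    simp
  simp only [e4]
  exact hc.symm

/-- the Casimir operator of the Lie algebra -/
theorem th_so (b : Matrix m m F) : (2 : F) • th H s b = bᵀ - (b * J⁻¹).trace • J := by
  have k1 := proj_so hJ he hs hss hspan hG hHG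
  ext p q
  have e1 : ((2 : F) • th H s b) p q = ∑ w : m × m, b w.1 w.2 *
      ((2 : F) • ∑ i, ∑ j, (H i j * (Matrix.single p w.1 1 * s i).trace) • s j) w.2 q := by
    have e2 : ∀ (i : ι) (w : m), (Matrix.single p w (1 : F) * s i).trace = s i w p := by
      intro i w
      rw [Matrix.trace_single_mul]
      simp
    have e3 := congrFun (TT_mulVec H s b) (p, q)
    simp only at e3
    rw [Matrix.smul_apply, ← e3, smul_eq_mul, mulVec, dotProduct, Finset.mul_sum]
    refine Finset.sum_congr rfl fun w _ => ?_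
    simp only [e2, TT, of_apply, Matrix.smul_apply, Matrix.sum_apply, smul_eq_mul]
    have e4 : ∑ i, ∑ j, H i j * (s i w.1 p * s j w.2 q) = ∑ i, ∑ j, H i j * s i w.1 p * s j w.2 q :=
      Finset.sum_congr rfl fun i _ => Finset.sum_congr rfl fun j _ => by ring
    rw [e4]
    ring
  rw [e1]
  simp only [k1]
  simp only [ad3, Matrix.sub_apply, transpose_apply, Matrix.smul_apply, smul_eq_mul]
  have e5 : ∀ w : m × m, (J⁻¹ * (Matrix.single p w.1 (1 : F))ᵀ * J) w.2 q = J⁻¹ w.2 w.1 * J p q := by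
    intro w
    rw [Matrix.transpose_single, mul_apply]
    rw [Finset.sum_eq_single p]
    · simp
    · intro t _ ht
      simp [ht]
    · simp
  simp only [e5, mul_sub, Finset.sum_sub_distrib]
  congr 1
  · rw [Finset.sum_eq_single (q, p)]
    · simp
    · rintro ⟨a, c⟩ - hac
      simp only [Matrix.single_apply]
      split_ifs with h
      · exact absurd (by rw [h.1, h.2]) hac
      · simp
    · simp
  · rw [Matrix.trace, Finset.sum_mul, Fintype.sum_prod_type]
    refine Finset.sum_congr rfl fun a _ => ?_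
    rw [diag_apply, mul_apply, Finset.sum_mul]
    exact Finset.sum_congr rfl fun c _ => by ring

/-- the Casimir operator on all matrices -/
theorem cas_so (M : Matrix m m F) :
    (2 : F) • ∑ i, ∑ j, H i j • (s i * M * s j) = M.trace • (1 : Matrix m m F) - e • ad3 J M := by
  have hJi : J⁻¹ * J = 1 := nonsing_inv_mul _ hJ
  have hJi' : J * J⁻¹ = 1 := mul_nonsing_inv _ hJ
  have h1 := th_so hJ he hs hss hspan hG hHG (J * M)
  have e1 : ∀ i, s i = -(J⁻¹ * (s i)ᵀ * J) := by
    intro i
    rw [← neg_eq_iff_eq_neg]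
    exact (mem_so3.1 (hss i)).symm
  have e2 : ∑ i, ∑ j, H i j • (s i * M * s j) = -(J⁻¹ * th H s (J * M)) := by
    rw [th, Finset.mul_sum, ← Finset.sum_neg_distrib]
    refine Finset.sum_congr rfl fun i _ => ?_
    rw [Finset.mul_sum, ← Finset.sum_neg_distrib]
    refine Finset.sum_congr rfl fun j _ => ?_
    conv_lhs => rw [e1 i]
    rw [Matrix.mul_smul, ← smul_neg]
    congr 1
    noncomm_ring
  rw [e2, smul_neg, ← Matrix.mul_smul, h1, mul_sub, Matrix.mul_smul, hJi, transpose_mul, hs]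
  have e3 : (J * M * J⁻¹).trace = M.trace := by
    rw [Matrix.trace_mul_comm, ← mul_assoc, hJi, one_mul]
  rw [e3, neg_sub, Matrix.mul_smul, Matrix.mul_smul, ad3, mul_assoc]

/-- the Casimir operator in the adjoint representation -/
theorem adj_so {x : Matrix m m F} (h2 : (2 : F) ≠ 0) (hx : x ∈ so3 J) :
    ∑ i, ∑ j, H i j • ((x * s i - s i * x) * s j - s j * (x * s i - s i * x))
      = (((Fintype.card m : ℕ) : F) - 2 * e) • x := by
  have hsymm : ∀ i j, H i j = H j i := by
    have hGt : Gᵀ = G := by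
      ext i j
      rw [transpose_apply, hG, hG, Matrix.trace_mul_comm]
    have hHt : Hᵀ = H := by
      have h3 : G * Hᵀ = 1 := by
        have := congrArg Matrix.transpose hHG
        rwa [transpose_mul, transpose_one, hGt] at this
      have h4 : H * G * Hᵀ = Hᵀ := by rw [hHG, one_mul]
      rw [← h4, mul_assoc, h3, mul_one]
    intro i j
    exact congrFun (congrFun hHt j) i
  have c1 := cas_so hJ he hs hss hspan hG hHG (1 : Matrix m m F)
  have cx := cas_so hJ he hs hss hspan hG hHG x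
  have hx0 : x.trace = 0 := by
    have h3 := ad3_trace hJ x
    rw [mem_so3.1 hx, Matrix.trace_neg] at h3
    have h4 : 2 * x.trace = 0 := by linear_combination -h3
    exact (mul_eq_zero.1 h4).resolve_left h2
  rw [hx0, zero_smul, mem_so3.1 hx, smul_neg, sub_neg_eq_add, zero_add] at cx
  have ha1 : ad3 J (1 : Matrix m m F) = 1 := by
    rw [ad3, transpose_one, mul_one, nonsing_inv_mul _ hJ]
  rw [ha1, Matrix.trace_one] at c1
  have e1 : ∑ i, ∑ j, H i j • ((x * s i - s i * x) * s j - s j * (x * s i - s i * x))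
      = x * (∑ i, ∑ j, H i j • (s i * 1 * s j)) + (∑ i, ∑ j, H i j • (s i * 1 * s j)) * x
        - (2 : F) • ∑ i, ∑ j, H i j • (s i * x * s j) := by
    have e2 : ∀ M : Matrix m m F, ∑ i, ∑ j, H i j • (s j * M * s i) = ∑ i, ∑ j, H i j • (s i * M * s j) := by
      intro M
      rw [Finset.sum_comm]
      refine Finset.sum_congr rfl fun i _ => Finset.sum_congr rfl fun j _ => ?_
      rw [hsymm]
    have e3 : ∑ i, ∑ j, H i j • ((x * s i - s i * x) * s j - s j * (x * s i - s i * x))
        = ∑ i, ∑ j, H i j • (x * (s i * 1 * s j)) - ∑ i, ∑ j, H i j • (s i * x * s j)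
          - ∑ i, ∑ j, H i j • (s j * x * s i) + ∑ i, ∑ j, H i j • ((s j * 1 * s i) * x) := by
      rw [← Finset.sum_sub_distrib, ← Finset.sum_sub_distrib, ← Finset.sum_add_distrib]
      refine Finset.sum_congr rfl fun i _ => ?_
      rw [← Finset.sum_sub_distrib, ← Finset.sum_sub_distrib, ← Finset.sum_add_distrib]
      refine Finset.sum_congr rfl fun j _ => ?_
      rw [← smul_sub, ← smul_sub, ← smul_add]
      congr 1
      noncomm_ring
    rw [e3, e2 x]
    have e4 : ∑ i, ∑ j, H i j • (x * (s i * 1 * s j)) = x * ∑ i, ∑ j, H i j • (s i * 1 * s j) := by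
      simp only [Finset.mul_sum, Matrix.mul_smul]
    have e5 : ∑ i, ∑ j, H i j • ((s j * 1 * s i) * x) = (∑ i, ∑ j, H i j • (s i * 1 * s j)) * x := by
      rw [← e2 1]
      simp only [Finset.sum_mul, Matrix.smul_mul]
    rw [e4, e5, two_smul]
    abel
  rw [e1, cx]
  obtain ⟨C, hC⟩ : ∃ C, C = ∑ i, ∑ j, H i j • (s i * 1 * s j) := ⟨_, rfl⟩
  rw [← hC] at c1 ⊢
  have c2 : C = ((2 : F)⁻¹ * (((Fintype.card m : ℕ) : F) - e)) • (1 : Matrix m m F) := by
    have h3 := congrArg (fun M => (2 : F)⁻¹ • M) c1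
    simp only [smul_smul, inv_mul_cancel₀ h2, one_smul] at h3
    rw [h3, ← sub_smul, smul_smul]
  rw [c2, Matrix.mul_smul, Matrix.smul_mul, mul_one, one_mul, ← add_smul, ← sub_smul]
  congr 1
  have h4 : (2 : F) * 2⁻¹ = 1 := mul_inv_cancel₀ h2
  linear_combination ((Fintype.card m : F) - e) * h4

end

end Pool.Agent.Helper3.KN
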