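import Mathlib

/-!
Lie algebras of matrices which are stable under the orthogonal Lie algebra of a diagonal form.
-/

set_option autoImplicit false

open Matrix

namespace Pool.Agent.Helper3.KN

section proj
variable {F : Type*} [Field F] {A : Type*} [Ring A] [Algebra F A]

/-- the projection to the part with exactly one index -/
theorem proj_mem (h3 : (3 : F) ≠ 0) {L : Submodule F A} {T e : A} {μ : F} (hμ : μ ≠ 0) (hT : T * T = -(μ • e))
    (heT : e * T = T) (hTe : T * e = T) (hee : e * e = e) (hL : ∀ a ∈ L, T * a - a * T ∈ L) {M : A} (hM : M ∈ L) :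
    e * M + M * e - (2 : F) • (e * M * e) ∈ L := by
  have d2 : ∀ a : A, T * (T * a - a * T) - (T * a - a * T) * T = -(μ • (e * a + a * e)) - (2 : F) • (T * a * T) := by
    intro a
    have : T * (T * a - a * T) - (T * a - a * T) * T = (T * T) * a + a * (T * T) - (T * a * T + T * a * T) := by
      noncomm_ring
    rw [this, hT, two_smul, neg_mul, mul_neg, smul_mul_assoc, mul_smul_comm, smul_add]
    abel
  have m2 : ∀ a ∈ L, -(μ • (e * a + a * e)) - (2 : F) • (T * a * T) ∈ L := by
    intro a ha
    rw [← d2]
    exact hL _ (hL _ ha)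
  have h1 := m2 _ hM
  have h4 := m2 _ h1
  have key : -(μ • (e * (-(μ • (e * M + M * e)) - (2 : F) • (T * M * T)) + (-(μ • (e * M + M * e)) - (2 : F) • (T * M * T)) * e))
      - (2 : F) • (T * (-(μ • (e * M + M * e)) - (2 : F) • (T * M * T)) * T)
      + (4 * μ) • (-(μ • (e * M + M * e)) - (2 : F) • (T * M * T))
      = (-(3 * μ * μ)) • (e * M + M * e - (2 : F) • (e * M * e)) := by
    have r1 : e * (T * M * T) = T * M * T := by rw [← mul_assoc, ← mul_assoc, heT]
    have r2 : T * M * T * e = T * M * T := by rw [mul_assoc, hTe]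
    have r3 : T * (T * M * T) * T = (μ * μ) • (e * M * e) := by
      have : T * (T * M * T) * T = (T * T) * M * (T * T) := by noncomm_ring
      rw [this, hT, neg_mul, neg_mul_neg, smul_mul_assoc, smul_mul_assoc, mul_smul_comm, smul_smul]
    have r4 : T * (e * M + M * e) * T = (2 : F) • (T * M * T) := by
      have : T * (e * M + M * e) * T = (T * e) * M * T + T * M * (e * T) := by noncomm_ring
      rw [this, hTe, heT, two_smul]
    have r5 : e * (e * M + M * e) = e * M + e * M * e := by
      rw [mul_add, ← mul_assoc, hee, mul_assoc]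
    have r6 : (e * M + M * e) * e = e * M * e + M * e := by
      rw [add_mul, mul_assoc M, hee]
    simp only [mul_sub, sub_mul, mul_neg, neg_mul, mul_smul_comm, smul_mul_assoc, r1, r2, r3, r4, r5, r6]
    module
  have h5 := L.add_mem h4 (L.smul_mem (4 * μ) h1)
  rw [key] at h5
  have h6 : -(3 * μ * μ) ≠ 0 := neg_ne_zero.2 (mul_ne_zero (mul_ne_zero h3 hμ) hμ)
  have h7 := L.smul_mem ((-(3 * μ * μ))⁻¹) h5
  rwa [smul_smul, inv_mul_cancel₀ h6, one_smul] at h7

end proj

variable {F : Type*} [Field F] {m : Type*} [Fintype m] [DecidableEq m]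

/-- the rotation in the plane of `i` and `j` -/
def rot (d : m → F) (i j : m) : Matrix m m F := d j • Matrix.single i j 1 - d i • Matrix.single j i 1

/-- two entries -/
def two (d : m → F) (a b : F) (k l : m) : Matrix m m F :=
  (a * d l) • Matrix.single k l 1 + (b * d k) • Matrix.single l k 1

theorem rot_skew (d : m → F) {i j : m} : (rot d i j)ᵀ * diagonal d + diagonal d * rot d i j = 0 := by
  ext a b
  simp only [rot, Matrix.add_apply, Matrix.mul_diagonal, Matrix.diagonal_mul, Matrix.transpose_apply, Matrix.sub_apply,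
    Matrix.smul_apply, Matrix.single_apply, smul_eq_mul, Matrix.zero_apply]
  by_cases h1 : i = a <;> by_cases h2 : j = b <;> by_cases h3 : i = b <;> by_cases h4 : j = a <;>
    simp_all

/-- the part of a matrix with exactly one index in `{i, j}` -/
theorem one_index (h3 : (3 : F) ≠ 0) {d : m → F} (hd : ∀ i, d i ≠ 0) {L : Submodule F (Matrix m m F)}
    (hL : ∀ i j, i ≠ j → ∀ a ∈ L, rot d i j * a - a * rot d i j ∈ L) {M : Matrix m m F} (hM : M ∈ L) {i j : m}
    (hij : i ≠ j) : (Matrix.of fun a b => if ((a = i ∨ a = j) ↔ (b = i ∨ b = j)) then 0 else M a b) ∈ L := by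
  let e : Matrix m m F := diagonal fun a => if a = i ∨ a = j then 1 else 0
  have hT : rot d i j * rot d i j = -((d i * d j) • e) := by
    ext a b
    simp only [rot, e, sub_mul, mul_sub, Matrix.smul_mul, Matrix.mul_smul, Matrix.single_mul_single_same, smul_smul]
    rw [Matrix.single_mul_single_of_ne _ _ _ _ hij.symm, Matrix.single_mul_single_of_ne _ _ _ _ hij]
    simp only [smul_zero, zero_sub, sub_zero, Matrix.neg_apply, Matrix.sub_apply, Matrix.smul_apply, mul_one,
      Matrix.single_apply, Matrix.diagonal_apply, smul_eq_mul]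
    by_cases h1 : a = b
    · subst h1
      by_cases h2 : a = i
      · subst h2
        simp [hij, hij.symm, mul_comm]
      · by_cases h4 : a = j
        · subst h4
          simp [hij, hij.symm, mul_comm]
        · simp [h2, h4, Ne.symm h2, Ne.symm h4]
    · have h2 : ¬ (i = a ∧ i = b) := fun h => h1 (h.1.symm.trans h.2)
      have h4 : ¬ (j = a ∧ j = b) := fun h => h1 (h.1.symm.trans h.2)
      simp [h1, h2, h4]
  have heT : e * rot d i j = rot d i j := by
    ext a b
    simp only [rot, e, Matrix.diagonal_mul, Matrix.sub_apply, Matrix.smul_apply, Matrix.single_apply, smul_eq_mul]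
    by_cases h1 : i = a <;> by_cases h2 : j = a <;> simp_all [eq_comm]
  have hTe : rot d i j * e = rot d i j := by
    ext a b
    simp only [rot, e, Matrix.mul_diagonal, Matrix.sub_apply, Matrix.smul_apply, Matrix.single_apply, smul_eq_mul]
    by_cases h1 : i = b <;> by_cases h2 : j = b <;> simp_all [eq_comm]
  have hee : e * e = e := by
    simp only [e, Matrix.diagonal_mul_diagonal]
    congr 1
    ext a
    split_ifs <;> simp
  have h := proj_mem h3 (mul_ne_zero (hd i) (hd j)) hT heT hTe hee (hL i j hij) hM
  convert h using 1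
  ext a b
  simp only [e, Matrix.of_apply, Matrix.sub_apply, Matrix.add_apply, Matrix.smul_apply, Matrix.diagonal_mul,
    Matrix.mul_diagonal, smul_eq_mul]
  by_cases h1 : a = i ∨ a = j <;> by_cases h2 : b = i ∨ b = j <;> simp [h1, h2]
  ring

end Pool.Agent.Helper3.KN
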