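import Pool.Agent.Helper3.KN.Cas1
import Pool.Agent.Helper98.KM.A1

/-!
A Lie algebra of matrices stable under the symplectic Lie algebra.
-/

set_option autoImplicit false

open Matrix Pool.Agent.Helper98.CK

namespace Pool.Agent.Helper79.KN

variable {F : Type*} [Field F] {m : Type*} [Fintype m] [DecidableEq m]

theorem so_max_alt {J : Matrix m m F} (h2 : (2 : F) ≠ 0) (hJ : IsUnit J.det)
    (hs : Jᵀ = -J) (L : Submodule F (Matrix m m F)) (hbr : ∀ x ∈ L, ∀ y ∈ L, x * y - y * x ∈ L)
    (hL : ∀ s : Matrix m m F, sᵀ * J + J * s = 0 → ∀ a ∈ L, s * a - a * s ∈ L)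
    (hns : ∃ c ∈ L, ∀ l : F, c ≠ l • (1 : Matrix m m F)) :
    (∀ x : Matrix m m F, x.trace = 0 → x ∈ L) ∨
      (∀ s : Matrix m m F, sᵀ * J + J * s = 0 → s ∈ L) ∧ ∀ c ∈ L, ∃ l : F, cᵀ * J + J * c = l • J := by
  have hJa : ∀ v, B98 J v v = 0 := by
    intro v
    have h0 : B98 J v v = v ⬝ᵥ Jᵀ *ᵥ v := by
      rw [B98, mulVec_transpose, dotProduct_comm v (v ᵥ* J), ← dotProduct_mulVec]
    rw [hs, neg_mulVec, dotProduct_neg] at h0
    have h3 : 2 * B98 J v v = 0 := by
      rw [B98] at h0 ⊢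
      linear_combination h0
    exact (mul_eq_zero.1 h3).resolve_left h2
  have hEE : ∀ v, E98 J v v * E98 J v v = 0 := by
    intro v
    rw [E_mul_E, hJa, zero_smul]
  have hEs : ∀ v, (E98 J v v)ᵀ * J + J * E98 J v v = 0 := by
    intro v
    rw [E98, transpose_vecMulVec, mul_vecMulVec, vecMulVec_mul, ← mulVec_transpose, hs, neg_mulVec]
    ext i j
    simp [vecMulVec_apply]
  have hS : ∀ v w, E98 J v w + E98 J w v ∈ L := by
    refine Pool.Agent.Helper79.KM.sp_lie h2 hJ hJa Set.univ (fun _ _ _ _ => trivial) ?_ L hbr ?_ hns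
    · rw [Submodule.span_univ]
    · intro v _ a ha
      have h1 := hL _ (hEs v) a ha
      have h3 := hL _ (hEs v) _ h1
      have e1 : E98 J v v * (E98 J v v * a - a * E98 J v v) - (E98 J v v * a - a * E98 J v v) * E98 J v v
          = -((2 : F) • (E98 J v v * a * E98 J v v)) := by
        have : E98 J v v * (E98 J v v * a - a * E98 J v v) - (E98 J v v * a - a * E98 J v v) * E98 J v v
          = (E98 J v v * E98 J v v) * a + a * (E98 J v v * E98 J v v)
            - (E98 J v v * a * E98 J v v + E98 J v v * a * E98 J v v) := by noncomm_ring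
        rw [this, hEE, zero_mul, mul_zero, add_zero, zero_sub, two_smul]
      rw [e1] at h3
      have h4 : E98 J v v * a * E98 J v v ∈ L := by
        have h5 := L.smul_mem ((2 : F)⁻¹) (L.neg_mem h3)
        rwa [neg_neg, smul_smul, inv_mul_cancel₀ h2, one_smul] at h5
      constructor
      · have e3 : (1 + E98 J v v) * a * (1 - E98 J v v) = a + (E98 J v v * a - a * E98 J v v) - E98 J v v * a * E98 J v v := by
          noncomm_ring
        rw [e3]
        exact L.sub_mem (L.add_mem ha h1) h4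
      · have e3 : (1 - E98 J v v) * a * (1 + E98 J v v) = a - (E98 J v v * a - a * E98 J v v) - E98 J v v * a * E98 J v v := by
          noncomm_ring
        rw [e3]
        exact L.sub_mem (L.sub_mem ha h1) h4
  rcases Pool.Agent.Helper3.KM.sp_max h2 hJ hJa L hbr hS with h | h
  · exact Or.inl h
  · refine Or.inr ⟨?_, h⟩
    intro s hss
    have h1 := Pool.Agent.Helper3.KM.sub_ad3_eq hJ hJa s
    have h3 : Pool.Agent.Helper3.KM.ad3 J s = -s := (Pool.Agent.Helper3.KN.mem_so3_iff hJ).2 hss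
    rw [h3, sub_neg_eq_add] at h1
    have h4 : s + s ∈ L := by
      rw [h1]
      exact L.sum_mem fun i _ => hS _ _
    have h5 := L.smul_mem ((2 : F)⁻¹) h4
    rwa [← two_smul F s, smul_smul, inv_mul_cancel₀ h2, one_smul] at h5

end Pool.Agent.Helper79.KN
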